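import Pool.Agent.helper84.DM.Defs
import Pool.Agent.helper74.DM.XB
import Pool.Agent.helper85.LD.G1

/-!
DM project (MP_4467b5_nt), module ZG: growth and lower bounds of the zeta function.
-/

set_option autoImplicit false

open Complex Metric MeasureTheory Filter Topology

namespace Pool.Agent.helper84.DM

private lemma ZG_bound (f : ℕ → ℂ) (hf : ∀ n, ‖f n‖ ≤ 1) {s : ℂ} (hs : 3 / 2 ≤ s.re) :
    ‖LSeries f s‖ ≤ ∑' n : ℕ, ‖LSeries.term 1 (3 / 2 : ℂ) n‖ := by
  have h32 : ((3 / 2 : ℂ)).re = 3 / 2 := by norm_num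
  have hsum : Summable (fun n => ‖LSeries.term 1 (3 / 2 : ℂ) n‖) := by
    have : LSeriesSummable 1 (3 / 2 : ℂ) := LSeriesSummable_one_iff.mpr (by rw [h32]; norm_num)
    exact this.norm
  unfold LSeries
  refine tsum_of_norm_bounded hsum.hasSum fun n => ?_
  have h1 : ‖LSeries.term f s n‖ ≤ ‖LSeries.term 1 s n‖ :=
    LSeries.norm_term_le s (by simpa using hf n)
  refine h1.trans ?_
  exact LSeries.norm_term_le_of_re_le_re 1 (by rw [h32]; exact hs) n

theorem zeta_right : ∃ C : ℝ, 0 < C ∧ ∀ s : ℂ, 3 / 2 ≤ s.re →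
    Real.exp (-C) ≤ ‖riemannZeta s‖ ∧ ‖riemannZeta s‖ ≤ Real.exp C := by
  set S : ℝ := ∑' n : ℕ, ‖LSeries.term 1 (3 / 2 : ℂ) n‖ with hS
  have hS0 : 0 ≤ S := tsum_nonneg fun n => norm_nonneg _
  refine ⟨S + 1, by linarith, fun s hs => ?_⟩
  have hs1 : 1 < s.re := by linarith
  have hexp : S ≤ Real.exp (S + 1) := by
    have := Real.add_one_le_exp (S + 1)
    linarith
  have h1 : ‖riemannZeta s‖ ≤ S := by
    rw [← LSeries_one_eq_riemannZeta hs1]
    exact ZG_bound 1 (fun n => by simp) hs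
  have h2 : ‖LSeries (fun n => ((ArithmeticFunction.moebius n : ℤ) : ℂ)) s‖ ≤ S := by
    refine ZG_bound _ (fun n => ?_) hs
    have := ArithmeticFunction.abs_moebius_le_one (n := n)
    rw [Complex.norm_intCast]
    exact_mod_cast this
  have h3 : riemannZeta s * LSeries (fun n => ((ArithmeticFunction.moebius n : ℤ) : ℂ)) s = 1 := by
    rw [← LSeries_one_eq_riemannZeta hs1]
    exact LSeries_one_mul_Lseries_moebius hs1
  refine ⟨?_, h1.trans hexp⟩
  have h4 : ‖riemannZeta s‖ * ‖LSeries (fun n => ((ArithmeticFunction.moebius n : ℤ) : ℂ)) s‖ = 1 := by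
    rw [← norm_mul, h3, norm_one]
  rw [Real.exp_neg]
  have h5 : 1 ≤ ‖riemannZeta s‖ * Real.exp (S + 1) :=
    h4.symm.le.trans (mul_le_mul_of_nonneg_left (h2.trans hexp) (norm_nonneg _))
  rw [inv_le_iff_one_le_mul₀ (Real.exp_pos _)]
  exact h5

theorem zeta_poly : ∃ C : ℝ, 0 < C ∧ ∀ s : ℂ, -1 ≤ s.re → 1 ≤ |s.im| →
    ‖riemannZeta s‖ ≤ C * |s.im| ^ 3 := by
  obtain ⟨C0, hC0, hr⟩ := zeta_right
  obtain ⟨C1, hC1, hg⟩ := Pool.Agent.helper6.LD.zeta_growth
  obtain ⟨C2, hC2, hX⟩ := X_upper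
  -- bound to the right of 1/8
  have key : ∀ s : ℂ, 1 / 8 ≤ s.re → s.re ≤ 2 → 1 ≤ |s.im| →
      ‖riemannZeta s‖ ≤ 3 * C1 * |s.im| := by
    intro s h1 h2 h3
    have h4 := hg s h1 h3
    have h5 : ‖s‖ ≤ 3 * |s.im| := by
      refine (Complex.norm_le_abs_re_add_abs_im s).trans ?_
      rw [abs_of_nonneg (by linarith : 0 ≤ s.re)]
      linarith
    calc ‖riemannZeta s‖ ≤ C1 * ‖s‖ := h4
      _ ≤ C1 * (3 * |s.im|) := mul_le_mul_of_nonneg_left h5 hC1.le
      _ = _ := by ring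
  refine ⟨Real.exp C0 + 3 * C1 + 12 * C1 * C2, by positivity, fun s hs him => ?_⟩
  have hp1 : (1 : ℝ) ≤ |s.im| ^ 3 := one_le_pow₀ him
  have hp2 : |s.im| ≤ |s.im| ^ 3 := by
    calc |s.im| = |s.im| ^ 1 := (pow_one _).symm
      _ ≤ |s.im| ^ 3 := pow_le_pow_right₀ him (by norm_num)
  have e0 : 0 ≤ Real.exp C0 := (Real.exp_pos _).le
  have t1 : Real.exp C0 ≤ Real.exp C0 * |s.im| ^ 3 := le_mul_of_one_le_right e0 hp1
  have t2 : 3 * C1 * |s.im| ≤ 3 * C1 * |s.im| ^ 3 :=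
    mul_le_mul_of_nonneg_left hp2 (by positivity)
  have t3 : 0 ≤ 12 * C1 * C2 * |s.im| ^ 3 := by positivity
  have t4 : 0 ≤ 3 * C1 * |s.im| ^ 3 := by positivity
  have t5 : 0 ≤ Real.exp C0 * |s.im| ^ 3 := by positivity
  have hexpand : (Real.exp C0 + 3 * C1 + 12 * C1 * C2) * |s.im| ^ 3 =
      Real.exp C0 * |s.im| ^ 3 + 3 * C1 * |s.im| ^ 3 + 12 * C1 * C2 * |s.im| ^ 3 := by ring
  rw [hexpand]
  rcases le_or_gt (3 / 2) s.re with h | h
  · have := (hr s h).2
    linarith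
  rcases le_or_gt (1 / 8) s.re with h' | h'
  · have := key s h' (by linarith) him
    linarith
  · -- left part : functional equation
    set w : ℂ := 1 - s with hw
    have hwre : w.re = 1 - s.re := by simp [hw]
    have hwim : |w.im| = |s.im| := by simp [hw]
    have hw1 : w ≠ 1 := by
      intro hh
      rw [hh] at hwim
      simp at hwim
      rw [← hwim] at him
      norm_num at him
    have hfe : riemannZeta s = X w * riemannZeta w := by
      have := zeta_one_sub w (by rw [hwre]; linarith) hw1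
      rw [show (1 : ℂ) - w = s by rw [hw]; ring] at this
      exact this
    have hx := hX w (by rw [hwre]; linarith) (by rw [hwre]; linarith)
    have hz := key w (by rw [hwre]; linarith) (by rw [hwre]; linarith) (by rw [hwim]; exact him)
    rw [hwim] at hx hz
    rw [hfe, norm_mul]
    have h6 : C2 * (1 + |s.im|) ^ 2 ≤ C2 * (2 * |s.im|) ^ 2 := by
      refine mul_le_mul_of_nonneg_left ?_ hC2.le
      exact pow_le_pow_left₀ (by positivity) (by linarith) 2
    have h7 : ‖X w‖ * ‖riemannZeta w‖ ≤ (C2 * (2 * |s.im|) ^ 2) * (3 * C1 * |s.im|) :=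
      mul_le_mul (hx.trans h6) hz (norm_nonneg _) (by positivity)
    calc ‖X w‖ * ‖riemannZeta w‖ ≤ (C2 * (2 * |s.im|) ^ 2) * (3 * C1 * |s.im|) := h7
      _ = 12 * C1 * C2 * |s.im| ^ 3 := by ring
      _ ≤ _ := by linarith

theorem zeta_left_lower : ∃ c : ℝ, 0 < c ∧ ∀ s : ℂ, -1 ≤ s.re → s.re ≤ -1 / 2 → 1 ≤ |s.im| →
    c * |s.im| ≤ ‖riemannZeta s‖ := by
  obtain ⟨C0, hC0, hr⟩ := zeta_right
  obtain ⟨c, hc, hX⟩ := X_lower
  refine ⟨c * Real.exp (-C0), by positivity, fun s hs1 hs2 him => ?_⟩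
  set w : ℂ := 1 - s with hw
  have hwre : w.re = 1 - s.re := by simp [hw]
  have hwim : |w.im| = |s.im| := by simp [hw]
  have hw1 : w ≠ 1 := by
    intro hh
    rw [hh] at hwim
    simp at hwim
    rw [← hwim] at him
    norm_num at him
  have hfe : riemannZeta s = X w * riemannZeta w := by
    have := zeta_one_sub w (by rw [hwre]; linarith) hw1
    rw [show (1 : ℂ) - w = s by rw [hw]; ring] at this
    exact this
  have hx := hX w (by rw [hwre]; linarith) (by rw [hwre]; linarith) (by rw [hwim]; exact him)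
  have hz := (hr w (by rw [hwre]; linarith)).1
  rw [hwim] at hx
  rw [hfe, norm_mul]
  calc c * Real.exp (-C0) * |s.im| = (c * |s.im|) * Real.exp (-C0) := by ring
    _ ≤ ‖X w‖ * ‖riemannZeta w‖ := mul_le_mul hx hz (Real.exp_pos _).le (norm_nonneg _)

end Pool.Agent.helper84.DM
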