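import Pool.Agent.helper84.DM.Defs
import Pool.Agent.helper18.DM.MV

/-!
DM project (MP_4467b5_nt), module MVI: mean value theorem for absolutely convergent Dirichlet
series.
-/

set_option autoImplicit false

open Complex Metric MeasureTheory Filter Topology

namespace Pool.Agent.helper84.DM

private lemma MVI_norm_cpow_le (n : ℕ) (t : ℝ) (hn : n ≠ 0) :
    ‖(n : ℂ) ^ (-(t * I))‖ = 1 := by
  have hn' : (0 : ℝ) < n := by exact_mod_cast Nat.pos_of_ne_zero hn
  have := Complex.norm_cpow_eq_rpow_re_of_pos hn' (-(t * I))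
  rw [show ((n : ℝ) : ℂ) = (n : ℂ) by simp] at this
  rw [this]
  simp

private lemma MVI_norm_term (a : ℕ → ℂ) (h0 : a 0 = 0) (n : ℕ) (t : ℝ) :
    ‖a n * (n : ℂ) ^ (-(t * I))‖ ≤ ‖a n‖ := by
  by_cases hn : n = 0
  · subst hn; simp [h0]
  · rw [norm_mul, MVI_norm_cpow_le n t hn, mul_one]

private lemma MVI_cont_term (a : ℕ → ℂ) (h0 : a 0 = 0) (n : ℕ) :
    Continuous (fun t : ℝ => a n * (n : ℂ) ^ (-(t * I))) := by
  by_cases hn : n = 0
  · subst hn; simp only [h0, zero_mul]; exact continuous_const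
  · have hn' : (n : ℂ) ≠ 0 := by exact_mod_cast hn
    have : Continuous (fun t : ℝ => (n : ℂ) ^ (-(t * I))) := by
      have h1 : Continuous (fun t : ℝ => (-(t * I) : ℂ)) := by fun_prop
      exact h1.const_cpow (Or.inl hn')
    exact continuous_const.mul this

theorem mv_tsum (δ : ℝ) (hδ : 0 < δ) (hδ1 : δ ≤ 1) : ∃ C : ℝ, 0 < C ∧
    ∀ (a : ℕ → ℂ) (A L : ℝ), a 0 = 0 → 0 ≤ L → Summable (fun n => ‖a n‖) →
      Summable (fun n => ‖a n‖ ^ 2 * (n : ℝ) ^ (1 + δ)) →
      ∫ t in A..(A + L), ‖∑' n : ℕ, a n * (n : ℂ) ^ (-(t * I))‖ ^ 2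
        ≤ ∑' n : ℕ, ‖a n‖ ^ 2 * (L + C * (n : ℝ) ^ (1 + δ)) := by
  obtain ⟨C, hC, hmv⟩ := mv δ hδ hδ1
  refine ⟨C, hC, fun a A L h0 hL ha hb => ?_⟩
  -- partial sums
  set F : ℕ → ℝ → ℂ := fun N t => ∑ n ∈ Finset.Icc 1 N, a n * (n : ℂ) ^ (-(t * I)) with hF
  set G : ℝ → ℂ := fun t => ∑' n : ℕ, a n * (n : ℂ) ^ (-(t * I)) with hG
  set S : ℝ := ∑' n : ℕ, ‖a n‖ with hS
  have hsum : ∀ t : ℝ, Summable (fun n : ℕ => a n * (n : ℂ) ^ (-(t * I))) := fun t =>
    Summable.of_norm_bounded ha (fun n => MVI_norm_term a h0 n t)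
  have hFr : ∀ N t, F N t = ∑ n ∈ Finset.range (N + 1), a n * (n : ℂ) ^ (-(t * I)) := by
    intro N t
    rw [hF]
    simp only
    rw [Finset.range_eq_Ico, Finset.sum_eq_sum_Ico_succ_bot (Nat.succ_pos N), h0, zero_mul,
      zero_add]
    rfl
  have hlim : ∀ t : ℝ, Tendsto (fun N => F N t) atTop (𝓝 (G t)) := by
    intro t
    simp_rw [hFr]
    exact ((hsum t).hasSum.tendsto_sum_nat).comp (tendsto_add_atTop_nat 1)
  have hFb : ∀ N t, ‖F N t‖ ≤ S := by
    intro N t
    rw [hFr]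
    refine (norm_sum_le _ _).trans ?_
    refine (Finset.sum_le_sum fun n _ => MVI_norm_term a h0 n t).trans ?_
    exact ha.sum_le_tsum _ (fun n _ => norm_nonneg _)
  have hFc : ∀ N, Continuous (F N) := by
    intro N
    exact continuous_finset_sum _ fun n _ => MVI_cont_term a h0 n
  have hS0 : 0 ≤ S := tsum_nonneg fun n => norm_nonneg _
  -- summability of the squares
  have hsq : Summable (fun n => ‖a n‖ ^ 2 * L) := by
    refine Summable.mul_right _ ?_
    refine Summable.of_nonneg_of_le (fun n => sq_nonneg _) (fun n => ?_) (ha.mul_left S)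
    rw [sq]
    exact mul_le_mul_of_nonneg_right (ha.le_tsum n (fun m _ => norm_nonneg _)) (norm_nonneg _)
  have htot : Summable (fun n : ℕ => ‖a n‖ ^ 2 * (L + C * (n : ℝ) ^ (1 + δ))) := by
    have := hsq.add (hb.mul_left C)
    refine this.congr fun n => ?_
    ring
  -- convergence of the integrals
  have hint : Tendsto (fun N => ∫ t in A..(A + L), ‖F N t‖ ^ 2) atTop
      (𝓝 (∫ t in A..(A + L), ‖G t‖ ^ 2)) := by
    refine intervalIntegral.tendsto_integral_filter_of_dominated_convergence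
      (fun _ => S ^ 2) ?_ ?_ ?_ ?_
    · exact Eventually.of_forall fun N => ((hFc N).norm.pow 2).aestronglyMeasurable
    · refine Eventually.of_forall fun N => ae_of_all _ fun t _ => ?_
      rw [Real.norm_of_nonneg (sq_nonneg _)]
      exact pow_le_pow_left₀ (norm_nonneg _) (hFb N t) 2
    · exact intervalIntegrable_const
    · exact ae_of_all _ fun t _ => ((hlim t).norm.pow 2)
  refine le_of_tendsto' hint fun N => ?_
  have h1 := hmv (Finset.Icc 1 N) a A L (by simp) hL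
  refine h1.trans ?_
  exact htot.sum_le_tsum _ (fun n _ => by positivity)

end Pool.Agent.helper84.DM
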